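import Mathlib

/-!
# The inverse Turán number of paths of odd length

We prove that for every `t ≥ 1`, `ex⁻¹(k, P_{2t+1}) = (⌊k/t⌋ choose 2) + o(k²)`, where `P_{2t+1}` is
the path with `2t+1` edges.

Upper bound. Let `G` have `m` edges and suppose that every `P_{2t+1}`-free subgraph of `G` has fewer
than `k` edges. Star forests (centred on or off a maximal independent set) show that `G` has at most
`2k` non-isolated vertices. Let `U` be the set of vertices of degree at least `η k`. A greedy choice
gives boundedly many pairwise disjoint `t`-sets such that all but `γ k` of the vertices of `U` are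
joined to all the vertices of one of the `t`-sets; joining each of them to one such `t`-set gives a
`P_{2t+1}`-free subgraph with about `t |U|` edges, so `|U| ≤ k / t + o(k)` and
`m ≤ |U|²/2 + o(k²)`.

Lower bound. A complete graph on `⌊k/t⌋ - 1` vertices, by the Erdős–Gallai theorem for paths,
which is proved here too.
-/

set_option autoImplicit false

open SimpleGraph

namespace Pool.Agent.Results.MP_002b89_co.InverseTuranOddPath

/-- `ex G F` is the largest number of edges in a subgraph of `G` that contains no copy of `F`. -/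
noncomputable def ex {V W : Type} (G : SimpleGraph V) (F : SimpleGraph W) : ℕ :=
  sSup {m : ℕ | ∃ H : SimpleGraph V, H ≤ G ∧ F.Free H ∧ H.edgeSet.ncard = m}

/-- The inverse Turán number: the supremum (in `ℕ∞`) of `e(G)` over all finite graphs `G` with
`ex G F < k`. -/
noncomputable def exInv {W : Type} (k : ℕ) (F : SimpleGraph W) : ℕ∞ :=
  ⨆ (n : ℕ) (G : SimpleGraph (Fin n)) (_ : ex G F < k), (G.edgeSet.ncard : ℕ∞)

/-- Graphs whose edges join a centre to a non-centre of the same class, with at most `t` centres in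
each class, contain no path with `2t+2` vertices. -/
lemma free_of_classes {V ι : Type} (H : SimpleGraph V) (cls : V → ι) (C : Set V) (t : ℕ)
    (h1 : ∀ u v, H.Adj u v → cls u = cls v)
    (h2 : ∀ u v, H.Adj u v → (u ∈ C ∨ v ∈ C))
    (h3 : ∀ i, ∀ s : Finset V, (∀ v ∈ s, v ∈ C ∧ cls v = i) → s.card ≤ t) :
    (pathGraph (2 * t + 2)).Free H := by
  classical
  rintro ⟨f⟩
  have hadj : ∀ j (hj : j + 1 < 2 * t + 2), H.Adj (f ⟨j, by omega⟩) (f ⟨j + 1, hj⟩) := by
    intro j hj
    exact f.toHom.map_adj (by rw [pathGraph_adj]; simp)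
  have hcls : ∀ j (hj : j < 2 * t + 2), cls (f ⟨j, hj⟩) = cls (f ⟨0, by omega⟩) := by
    intro j
    induction j with
    | zero => intro _; rfl
    | succ j ih =>
      intro hj
      rw [← ih (by omega)]
      exact (h1 _ _ (hadj j hj)).symm
  have hinj : Function.Injective f := f.injective
  let g : Fin (t + 1) → V := fun j =>
    if f ⟨2 * j.1, by omega⟩ ∈ C then f ⟨2 * j.1, by omega⟩ else f ⟨2 * j.1 + 1, by omega⟩
  have hg : Function.Injective g := by
    intro a b hab
    simp only [g] at hab
    ext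
    split_ifs at hab <;>
    · have := hinj hab
      rw [Fin.mk.injEq] at this
      omega
  have hgC : ∀ j, g j ∈ C := by
    intro j
    simp only [g]
    split_ifs with hc
    · exact hc
    · rcases h2 _ _ (hadj (2 * j.1) (by omega)) with h | h
      · exact absurd h hc
      · exact h
  have hgcls : ∀ j, cls (g j) = cls (f ⟨0, by omega⟩) := by
    intro j
    simp only [g]
    split_ifs
    · exact hcls _ _
    · exact hcls _ _
  have := h3 (cls (f ⟨0, by omega⟩)) (Finset.univ.image g) (by
    intro v hv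
    rw [Finset.mem_image] at hv
    obtain ⟨j, -, rfl⟩ := hv
    exact ⟨hgC j, hgcls j⟩)
  rw [Finset.card_image_of_injective _ hg] at this
  simp at this

/-- The bipartite graph in which every vertex `v` outside `C` is joined to the vertices of `cen v`. -/
def assignGraph {V : Type} (C : Finset V) (cen : V → Finset V) : SimpleGraph V where
  Adj u v := (u ∉ C ∧ v ∈ C ∧ v ∈ cen u) ∨ (v ∉ C ∧ u ∈ C ∧ u ∈ cen v)
  symm := ⟨by
    intro u v h
    rcases h with h | h
    · exact Or.inr h
    · exact Or.inl h⟩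
  loopless := ⟨by
    intro u h
    rcases h with ⟨h1, h2, _⟩ | ⟨h1, h2, _⟩ <;> exact h1 h2⟩

lemma assignGraph_edges {V : Type} [Fintype V] (C : Finset V) (cen : V → Finset V)
    (A : Finset V) (t : ℕ) (hA : ∀ v ∈ A, v ∉ C) (hcen : ∀ v ∈ A, cen v ⊆ C)
    (ht : ∀ v ∈ A, (cen v).card = t) :
    t * A.card ≤ (assignGraph C cen).edgeSet.ncard := by
  classical
  have : (A.sigma (fun v => cen v)).card = A.card * t := by
    rw [Finset.card_sigma, Finset.sum_congr rfl ht]
    simp
  rw [mul_comm, ← this]
  have hfin : (assignGraph C cen).edgeSet.Finite := Set.toFinite _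
  rw [← Set.ncard_coe_finset]
  refine Set.ncard_le_ncard_of_injOn (fun p => s(p.1, p.2)) ?_ ?_ hfin
  · rintro ⟨v, c⟩ h
    simp only [Finset.coe_sigma, Set.mem_sigma_iff, Finset.mem_coe] at h
    show s(v, c) ∈ (assignGraph C cen).edgeSet
    rw [SimpleGraph.mem_edgeSet]
    exact Or.inl ⟨hA v h.1, hcen v h.1 h.2, h.2⟩
  · rintro ⟨v, c⟩ h ⟨v', c'⟩ h' he
    simp only [Finset.coe_sigma, Set.mem_sigma_iff, Finset.mem_coe] at h h'
    simp only [Sym2.eq_iff] at he
    rcases he with ⟨h1, h2⟩ | ⟨h1, h2⟩
    · subst h1; subst h2; rfl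
    · exfalso
      subst h1
      exact hA _ h.1 (hcen _ h'.1 h'.2)

lemma pick {V : Type} [Fintype V] [DecidableEq V] (G : SimpleGraph V) [DecidableRel G.Adj]
    (S : Finset V) (hS : ∀ u v, G.Adj u v → v ∈ S) (N d : ℝ) (hN : (S.card : ℝ) ≤ N)
    (hN0 : 0 < N) (hd : 0 < d) (used U : Finset V) (hne : U.Nonempty) (t : ℕ)
    (hU : ∀ v ∈ U, d + used.card + t ≤ (G.degree v : ℝ)) :
    ∃ T : Finset V, T.card = t ∧ Disjoint T used ∧
      (d / N) ^ t * (U.card : ℝ) ≤ ((U.filter (fun v => T ⊆ G.neighborFinset v)).card : ℝ) := by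
  induction t with
  | zero =>
    refine ⟨∅, rfl, by simp, ?_⟩
    simp
  | succ t ih =>
    obtain ⟨T', hT'c, hT'd, hT'⟩ := ih (by
      intro v hv
      have := hU v hv
      push_cast at this
      linarith)
    set U' := U.filter (fun v => T' ⊆ G.neighborFinset v) with hU'
    have hUpos : (0 : ℝ) < U.card := by exact_mod_cast hne.card_pos
    have hU'pos : (0 : ℝ) < U'.card := lt_of_lt_of_le (by positivity) hT'
    set R := S \ (used ∪ T') with hR
    -- double counting
    have hdc : ∑ x ∈ R, ((U'.filter (fun v => G.Adj v x)).card : ℝ)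
        = ∑ v ∈ U', ((R.filter (fun x => G.Adj v x)).card : ℝ) := by
      have := Finset.sum_card_bipartiteAbove_eq_sum_card_bipartiteBelow (s := U') (t := R)
        (fun v x => G.Adj v x)
      simp only [Finset.bipartiteAbove, Finset.bipartiteBelow] at this
      exact_mod_cast this.symm
    have hlow : ∀ v ∈ U', d ≤ ((R.filter (fun x => G.Adj v x)).card : ℝ) := by
      intro v hv
      have hvU : v ∈ U := (Finset.mem_filter.mp hv).1
      have h1 := hU v hvU
      have h2 : G.neighborFinset v ⊆ (R.filter (fun x => G.Adj v x)) ∪ (used ∪ T') := by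
        intro x hx
        rw [SimpleGraph.mem_neighborFinset] at hx
        by_cases hxx : x ∈ used ∪ T'
        · exact Finset.mem_union_right _ hxx
        · refine Finset.mem_union_left _ ?_
          rw [Finset.mem_filter, hR, Finset.mem_sdiff]
          exact ⟨⟨hS v x hx, hxx⟩, hx⟩
      have h3 := Finset.card_le_card h2
      have h4 := Finset.card_union_le (R.filter (fun x => G.Adj v x)) (used ∪ T')
      have h5 := Finset.card_union_le used T'
      rw [SimpleGraph.card_neighborFinset_eq_degree] at h3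
      have h6 : (G.degree v : ℝ) ≤ ((R.filter (fun x => G.Adj v x)).card : ℝ) + used.card + t := by
        rw [hT'c] at h5
        exact_mod_cast (by omega : G.degree v ≤ (R.filter (fun x => G.Adj v x)).card + used.card + t)
      push_cast at h1
      linarith
    have hsum : (U'.card : ℝ) * d ≤ ∑ x ∈ R, ((U'.filter (fun v => G.Adj v x)).card : ℝ) := by
      rw [hdc]
      calc (U'.card : ℝ) * d = ∑ _v ∈ U', d := by simp
        _ ≤ _ := Finset.sum_le_sum hlow
    have hex : ∃ x ∈ R, (U'.card : ℝ) * d / N ≤ ((U'.filter (fun v => G.Adj v x)).card : ℝ) := by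
      by_contra hcon
      push Not at hcon
      have hRne : R.Nonempty := by
        by_contra hRe
        rw [Finset.not_nonempty_iff_eq_empty] at hRe
        rw [hRe] at hsum
        simp at hsum
        nlinarith
      have h1 : ∑ x ∈ R, ((U'.filter (fun v => G.Adj v x)).card : ℝ)
          < ∑ _x ∈ R, (U'.card : ℝ) * d / N := Finset.sum_lt_sum_of_nonempty hRne hcon
      have h2 : ∑ _x ∈ R, (U'.card : ℝ) * d / N ≤ (U'.card : ℝ) * d := by
        rw [Finset.sum_const, nsmul_eq_mul]
        have hRc : (R.card : ℝ) ≤ N := by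
          refine le_trans ?_ hN
          exact_mod_cast Finset.card_le_card Finset.sdiff_subset
        rw [mul_div_assoc', div_le_iff₀ hN0, mul_comm]
        exact mul_le_mul_of_nonneg_left hRc (by positivity)
      linarith
    obtain ⟨x, hxR, hx⟩ := hex
    rw [hR, Finset.mem_sdiff, Finset.mem_union] at hxR
    push Not at hxR
    refine ⟨insert x T', ?_, ?_, ?_⟩
    · rw [Finset.card_insert_of_notMem hxR.2.2, hT'c]
    · rw [Finset.disjoint_insert_left]
      exact ⟨hxR.2.1, hT'd⟩
    · have hEq : U.filter (fun v => insert x T' ⊆ G.neighborFinset v)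
          = U'.filter (fun v => G.Adj v x) := by
        ext v
        simp only [hU', Finset.mem_filter, Finset.insert_subset_iff, SimpleGraph.mem_neighborFinset]
        tauto
      rw [hEq]
      refine le_trans ?_ hx
      rw [pow_succ]
      calc (d / N) ^ t * (d / N) * (U.card : ℝ) = ((d / N) ^ t * (U.card : ℝ)) * (d / N) := by ring
        _ ≤ (U'.card : ℝ) * (d / N) := mul_le_mul_of_nonneg_right hT' (by positivity)
        _ = (U'.card : ℝ) * d / N := by ring

lemma cover {V : Type} [Fintype V] [DecidableEq V] (G : SimpleGraph V) [DecidableRel G.Adj]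
    (S : Finset V) (hS : ∀ u v, G.Adj u v → v ∈ S) (N d : ℝ) (hN : (S.card : ℝ) ≤ N)
    (hN0 : 0 < N) (hd : 0 < d) (t : ℕ) (ht : 1 ≤ t) (U : Finset V) (M : ℕ)
    (hU : ∀ v ∈ U, d + t * M + t ≤ (G.degree v : ℝ)) (hc : (d / N) ^ t ≤ 1) :
    ∀ m ≤ M, ∃ 𝒯 : Finset (Finset V), 𝒯.card ≤ m ∧ (∀ T ∈ 𝒯, T.card = t) ∧
      (∀ T ∈ 𝒯, ∀ T' ∈ 𝒯, T ≠ T' → Disjoint T T') ∧
      ((U.filter (fun v => ∀ T ∈ 𝒯, ¬ T ⊆ G.neighborFinset v)).card : ℝ)
        ≤ (1 - (d / N) ^ t) ^ m * (U.card : ℝ) := by
  intro m
  induction m with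
  | zero =>
    intro _
    refine ⟨∅, by simp, by simp, by simp, ?_⟩
    simp
  | succ m ih =>
    intro hm
    obtain ⟨𝒯, h1, h2, h3, h4⟩ := ih (by omega)
    set W := U.filter (fun v => ∀ T ∈ 𝒯, ¬ T ⊆ G.neighborFinset v) with hW
    rcases W.eq_empty_or_nonempty with hWe | hWne
    · refine ⟨𝒯, by omega, h2, h3, ?_⟩
      rw [← hW, hWe]
      simp only [Finset.card_empty, Nat.cast_zero]
      have : 0 ≤ 1 - (d / N) ^ t := by linarith
      positivity
    · have hused : (𝒯.biUnion id).card ≤ t * m := by
        refine le_trans Finset.card_biUnion_le ?_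
        simp only [id]
        rw [Finset.sum_congr rfl (fun T hT => h2 T hT)]
        simp only [Finset.sum_const, smul_eq_mul]
        rw [mul_comm]
        exact Nat.mul_le_mul_left _ h1
      obtain ⟨T, hT1, hT2, hT3⟩ := pick G S hS N d hN hN0 hd (𝒯.biUnion id) W hWne t (by
        intro v hv
        have := hU v (Finset.mem_filter.mp hv).1
        have h5 : ((𝒯.biUnion id).card : ℝ) ≤ t * M := by
          exact_mod_cast le_trans hused (Nat.mul_le_mul_left _ (by omega))
        linarith)
      have hTne : T.Nonempty := by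
        rw [← Finset.card_pos, hT1]; omega
      have hTn : T ∉ 𝒯 := by
        intro hTm
        have : T ⊆ 𝒯.biUnion id := Finset.subset_biUnion_of_mem id hTm
        obtain ⟨x, hx⟩ := hTne
        exact (Finset.disjoint_left.mp hT2 hx) (this hx)
      refine ⟨insert T 𝒯, ?_, ?_, ?_, ?_⟩
      · rw [Finset.card_insert_of_notMem hTn]; omega
      · intro T' hT'
        rw [Finset.mem_insert] at hT'
        rcases hT' with rfl | h
        · exact hT1
        · exact h2 _ h
      · intro A hA B hB hAB
        rw [Finset.mem_insert] at hA hB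
        have hdis : ∀ B ∈ 𝒯, Disjoint T B := by
          intro B hB
          exact Finset.disjoint_of_subset_right (Finset.subset_biUnion_of_mem id hB) hT2
        rcases hA with rfl | hA
        · rcases hB with rfl | hB
          · exact absurd rfl hAB
          · exact hdis B hB
        · rcases hB with rfl | hB
          · exact (hdis A hA).symm
          · exact h3 A hA B hB hAB
      · have hEq : U.filter (fun v => ∀ T' ∈ insert T 𝒯, ¬ T' ⊆ G.neighborFinset v)
            = W.filter (fun v => ¬ T ⊆ G.neighborFinset v) := by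
          ext v
          simp only [hW, Finset.mem_filter, Finset.mem_insert, forall_eq_or_imp]
          tauto
        rw [hEq]
        have hsplit := Finset.card_filter_add_card_filter_not (s := W) (fun v => T ⊆ G.neighborFinset v)
        have hsplit' : ((W.filter (fun v => T ⊆ G.neighborFinset v)).card : ℝ)
          + ((W.filter (fun v => ¬ T ⊆ G.neighborFinset v)).card : ℝ) = W.card := by
          exact_mod_cast hsplit
        rw [pow_succ]
        have h0 : 0 ≤ 1 - (d / N) ^ t := by linarith
        calc ((W.filter (fun v => ¬ T ⊆ G.neighborFinset v)).card : ℝ)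
            = W.card - ((W.filter (fun v => T ⊆ G.neighborFinset v)).card : ℝ) := by linarith
          _ ≤ W.card - (d / N) ^ t * (W.card : ℝ) := by linarith
          _ = (1 - (d / N) ^ t) * (W.card : ℝ) := by ring
          _ ≤ (1 - (d / N) ^ t) * ((1 - (d / N) ^ t) ^ m * (U.card : ℝ)) :=
              mul_le_mul_of_nonneg_left h4 h0
          _ = _ := by ring

lemma star_bound {V : Type} [Fintype V] (G : SimpleGraph V) (t : ℕ) (ht : 1 ≤ t) (k : ℕ)
    (hk : ∀ H : SimpleGraph V, H ≤ G → (pathGraph (2 * t + 2)).Free H → H.edgeSet.ncard < k)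
    (A : Finset V) (c : V → V) (hc : ∀ v ∈ A, G.Adj v (c v) ∧ c v ∉ A) : A.card < k := by
  classical
  set H := assignGraph (Aᶜ) (fun v => {c v}) with hH
  have hle : H ≤ G := by
    intro u v h
    rcases h with ⟨h1, h2, h3⟩ | ⟨h1, h2, h3⟩
    · simp only [Finset.mem_compl, not_not, Finset.mem_singleton] at h1 h3
      rw [h3]
      exact (hc u h1).1
    · simp only [Finset.mem_compl, not_not, Finset.mem_singleton] at h1 h3
      rw [h3]
      exact (hc v h1).1.symm
  have hfree : (pathGraph (2 * t + 2)).Free H := by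
    refine free_of_classes H (fun v => if v ∈ A then c v else v) (↑(Aᶜ : Finset V)) t ?_ ?_ ?_
    · intro u v h
      rcases h with ⟨h1, h2, h3⟩ | ⟨h1, h2, h3⟩
      · simp only [Finset.mem_compl, not_not, Finset.mem_singleton] at h1 h2 h3
        have := (hc u h1).2
        simp [h1, h3, this]
      · simp only [Finset.mem_compl, not_not, Finset.mem_singleton] at h1 h2 h3
        have := (hc v h1).2
        simp [h1, h3, this]
    · intro u v h
      rcases h with ⟨h1, h2, h3⟩ | ⟨h1, h2, h3⟩
      · right; exact_mod_cast h2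
      · left; exact_mod_cast h2
    · intro i s hs
      refine le_trans ?_ ht
      rw [Finset.card_le_one]
      intro a ha b hb
      have h1 := hs a ha
      have h2 := hs b hb
      have h1' : a ∉ A := by simpa using h1.1
      have h2' : b ∉ A := by simpa using h2.1
      have h3 := h1.2
      have h4 := h2.2
      simp only [h1', h2', if_false] at h3 h4
      rw [h3, h4]
  have h1 := hk H hle hfree
  have h2 := assignGraph_edges (Aᶜ) (fun v => ({c v} : Finset V)) A 1 (by simp) (by
    intro v hv
    simpa using (hc v hv).2) (by simp)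
  rw [one_mul] at h2
  exact lt_of_le_of_lt h2 h1

lemma support_bound {V : Type} [Fintype V] [DecidableEq V] (G : SimpleGraph V)
    [DecidableRel G.Adj] (t : ℕ) (ht : 1 ≤ t)
    (k : ℕ) (hk : ∀ H : SimpleGraph V, H ≤ G → (pathGraph (2 * t + 2)).Free H →
      H.edgeSet.ncard < k) (S : Finset V) (hS : ∀ v, v ∈ S ↔ ∃ u, G.Adj v u) :
    S.card ≤ 2 * k := by
  classical
  obtain ⟨I, hI, hmax⟩ := Finset.exists_max_image
    ((Finset.univ : Finset (Finset V)).filter (fun s => ∀ a ∈ s, ∀ b ∈ s, ¬ G.Adj a b))
    (fun s => s.card) ⟨∅, by simp⟩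
  rw [Finset.mem_filter] at hI
  have hdom : ∀ v, v ∉ I → ∃ u ∈ I, G.Adj v u := by
    intro v hv
    by_contra hcon
    push Not at hcon
    have := hmax (insert v I) (by
      rw [Finset.mem_filter]
      refine ⟨Finset.mem_univ _, ?_⟩
      intro a ha b hb
      rw [Finset.mem_insert] at ha hb
      rcases ha with rfl | ha
      · rcases hb with rfl | hb
        · exact G.loopless.irrefl _
        · exact hcon b hb
      · rcases hb with rfl | hb
        · intro h; exact hcon a ha h.symm
        · exact hI.2 a ha b hb)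
    rw [Finset.card_insert_of_notMem hv] at this
    omega
  -- first part: vertices outside I
  have h1 : (S \ I).card < k := by
    refine star_bound G t ht k hk (S \ I)
      (fun v => if h : v ∉ I then (hdom v h).choose else v) ?_
    intro v hv
    rw [Finset.mem_sdiff] at hv
    simp only [hv.2, not_false_eq_true, dif_pos]
    have := (hdom v hv.2).choose_spec
    exact ⟨this.2, fun h => (Finset.mem_sdiff.mp h).2 this.1⟩
  have h2 : (S ∩ I).card < k := by
    refine star_bound G t ht k hk (S ∩ I)
      (fun v => if h : ∃ u, G.Adj v u then h.choose else v) ?_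
    intro v hv
    rw [Finset.mem_inter] at hv
    have hex : ∃ u, G.Adj v u := (hS v).mp hv.1
    simp only [hex, dif_pos]
    have := hex.choose_spec
    exact ⟨this, fun h => hI.2 v hv.2 _ (Finset.mem_inter.mp h).2 this⟩
  have h3 := Finset.card_sdiff_add_card_inter S I
  omega

lemma cover_bound {V : Type} [Fintype V] [DecidableEq V] (G : SimpleGraph V)
    [DecidableRel G.Adj] (t : ℕ) (k : ℕ)
    (hk : ∀ H : SimpleGraph V, H ≤ G → (pathGraph (2 * t + 2)).Free H → H.edgeSet.ncard < k)
    (𝒯 : Finset (Finset V)) (hcard : ∀ T ∈ 𝒯, T.card = t)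
    (hdisj : ∀ T ∈ 𝒯, ∀ T' ∈ 𝒯, T ≠ T' → Disjoint T T') (U : Finset V) :
    t * U.card < k + t * (t * 𝒯.card)
      + t * (U.filter (fun v => ∀ T ∈ 𝒯, ¬ T ⊆ G.neighborFinset v)).card := by
  classical
  set C := 𝒯.biUnion id with hC
  set cen : V → Finset V := fun v =>
    if h : ∃ T ∈ 𝒯, T ⊆ G.neighborFinset v then h.choose else ∅ with hcen
  have hcen1 : ∀ v, (∃ T ∈ 𝒯, T ⊆ G.neighborFinset v) → cen v ∈ 𝒯 ∧
      cen v ⊆ G.neighborFinset v := by
    intro v hv
    simp only [hcen, hv, dif_pos]
    exact hv.choose_spec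
  have hcen2 : ∀ v c, c ∈ cen v → (∃ T ∈ 𝒯, T ⊆ G.neighborFinset v) := by
    intro v c hc
    by_contra hcon
    simp only [hcen, hcon, dif_neg, not_false_eq_true] at hc
    exact absurd hc (Finset.notMem_empty _)
  set H := assignGraph C cen with hH
  have hle : H ≤ G := by
    intro u v h
    rcases h with ⟨h1, h2, h3⟩ | ⟨h1, h2, h3⟩
    · have := (hcen1 u (hcen2 u v h3)).2 h3
      rwa [SimpleGraph.mem_neighborFinset] at this
    · have := (hcen1 v (hcen2 v u h3)).2 h3
      rw [SimpleGraph.mem_neighborFinset] at this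
      exact this.symm
  set cls : V → Finset V := fun v =>
    if h : ∃ T ∈ 𝒯, v ∈ T then h.choose else cen v with hcls
  have hclsC : ∀ v, ∀ T ∈ 𝒯, v ∈ T → cls v = T := by
    intro v T hT hv
    have hex : ∃ T ∈ 𝒯, v ∈ T := ⟨T, hT, hv⟩
    simp only [hcls, hex, dif_pos]
    have := hex.choose_spec
    by_contra hne
    exact (Finset.disjoint_left.mp (hdisj _ this.1 _ hT hne) this.2) hv
  have hmemC : ∀ v, v ∈ C ↔ ∃ T ∈ 𝒯, v ∈ T := by
    intro v
    simp [hC]
  have hclsN : ∀ v, v ∉ C → cls v = cen v := by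
    intro v hv
    rw [hmemC] at hv
    simp only [hcls, hv, dif_neg, not_false_eq_true]
  have hclsadj : ∀ u v, u ∉ C → v ∈ C → v ∈ cen u → cls u = cls v := by
    intro u v h1 h2 h3
    rw [hclsN u h1]
    exact (hclsC v _ (hcen1 u (hcen2 u v h3)).1 h3).symm
  have hfree : (pathGraph (2 * t + 2)).Free H := by
    refine free_of_classes H cls (↑C) t ?_ ?_ ?_
    · intro u v h
      rcases h with ⟨h1, h2, h3⟩ | ⟨h1, h2, h3⟩
      · exact hclsadj u v h1 h2 h3
      · exact (hclsadj v u h1 h2 h3).symm
    · intro u v h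
      rcases h with ⟨h1, h2, h3⟩ | ⟨h1, h2, h3⟩
      · right; exact_mod_cast h2
      · left; exact_mod_cast h2
    · intro i s hs
      rcases s.eq_empty_or_nonempty with rfl | ⟨w, hw⟩
      · simp
      · have hw' := hs w hw
        rw [Finset.mem_coe, hmemC] at hw'
        obtain ⟨⟨T, hT, hwT⟩, hwi⟩ := hw'
        have hiT : i = T := by rw [← hwi]; exact hclsC w T hT hwT
        rw [← hcard T hT]
        refine Finset.card_le_card ?_
        intro v hv
        have hv' := hs v hv
        rw [Finset.mem_coe, hmemC] at hv'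
        obtain ⟨⟨T', hT', hvT'⟩, hvi⟩ := hv'
        have : cls v = T' := hclsC v T' hT' hvT'
        rw [hvi, hiT] at this
        rw [this]; exact hvT'
  have h1 := hk H hle hfree
  set A := U.filter (fun v => v ∉ C ∧ ∃ T ∈ 𝒯, T ⊆ G.neighborFinset v) with hA
  have h2 : t * A.card ≤ H.edgeSet.ncard := assignGraph_edges C cen A t (by
    intro v hv; exact (Finset.mem_filter.mp hv).2.1) (by
    intro v hv c hc
    have := (hcen1 v (Finset.mem_filter.mp hv).2.2).1
    rw [hmemC]
    exact ⟨_, this, hc⟩) (by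
    intro v hv
    exact hcard _ (hcen1 v (Finset.mem_filter.mp hv).2.2).1)
  have h3 : U ⊆ A ∪ (C ∪ U.filter (fun v => ∀ T ∈ 𝒯, ¬ T ⊆ G.neighborFinset v)) := by
    intro v hv
    simp only [Finset.mem_union, hA, Finset.mem_filter]
    by_cases h : ∃ T ∈ 𝒯, T ⊆ G.neighborFinset v
    · by_cases hc : v ∈ C
      · right; left; exact hc
      · left; exact ⟨hv, hc, h⟩
    · right; right
      push Not at h
      exact ⟨hv, h⟩
  have h4 := Finset.card_le_card h3
  have h5 := Finset.card_union_le A (C ∪ U.filter (fun v => ∀ T ∈ 𝒯, ¬ T ⊆ G.neighborFinset v))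
  have h6 := Finset.card_union_le C (U.filter (fun v => ∀ T ∈ 𝒯, ¬ T ⊆ G.neighborFinset v))
  have h7 : C.card ≤ t * 𝒯.card := by
    refine le_trans Finset.card_biUnion_le ?_
    simp only [id]
    rw [Finset.sum_congr rfl (fun T hT => hcard T hT)]
    simp only [Finset.sum_const, smul_eq_mul]
    rw [mul_comm]
  have h8 : U.card ≤ A.card + (t * 𝒯.card
    + (U.filter (fun v => ∀ T ∈ 𝒯, ¬ T ⊆ G.neighborFinset v)).card) := by omega
  have h9 := Nat.mul_le_mul_left t h8
  rw [Nat.mul_add, Nat.mul_add] at h9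
  omega

/-- Twice the number of edges is at most `|U|^2 + 2 D |S|`, with `S` the support and `U` the set of
vertices of degree at least `D`. -/
lemma edges_bound {V : Type} [Fintype V] [DecidableEq V] (G : SimpleGraph V)
    [DecidableRel G.Adj] (D : ℝ) (hD : 0 ≤ D) (S U : Finset V)
    (hS : ∀ v, v ∈ S ↔ ∃ u, G.Adj v u) (hU : ∀ v, v ∈ U ↔ D ≤ (G.degree v : ℝ)) :
    2 * (G.edgeSet.ncard : ℝ) ≤ (U.card : ℝ) ^ 2 + 2 * D * (S.card : ℝ) := by
  classical
  have h1 : (G.edgeSet.ncard) = G.edgeFinset.card := by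
    rw [← Set.ncard_coe_finset, SimpleGraph.coe_edgeFinset]
  have h2 := G.sum_degrees_eq_twice_card_edges
  rw [h1]
  have h3 : 2 * (G.edgeFinset.card : ℝ) = ∑ v, (G.degree v : ℝ) := by
    exact_mod_cast h2.symm
  rw [h3]
  -- split neighbours
  have h4 : ∀ v, (G.degree v : ℝ) ≤ ((U.filter (fun u => G.Adj v u)).card : ℝ)
      + (((S \ U).filter (fun u => G.Adj v u)).card : ℝ) := by
    intro v
    have : G.neighborFinset v ⊆ (U.filter (fun u => G.Adj v u)) ∪
        ((S \ U).filter (fun u => G.Adj v u)) := by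
      intro u hu
      rw [SimpleGraph.mem_neighborFinset] at hu
      by_cases huU : u ∈ U
      · exact Finset.mem_union_left _ (Finset.mem_filter.mpr ⟨huU, hu⟩)
      · refine Finset.mem_union_right _ (Finset.mem_filter.mpr
          ⟨Finset.mem_sdiff.mpr ⟨?_, huU⟩, hu⟩)
        rw [hS]
        exact ⟨v, hu.symm⟩
    have h5 := Finset.card_le_card this
    have h6 := Finset.card_union_le (U.filter (fun u => G.Adj v u))
      ((S \ U).filter (fun u => G.Adj v u))
    rw [SimpleGraph.card_neighborFinset_eq_degree] at h5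
    exact_mod_cast le_trans h5 h6
  have hdegS : ∀ v ∈ S \ U, (G.degree v : ℝ) ≤ D := by
    intro v hv
    by_contra hcon
    push Not at hcon
    exact (Finset.mem_sdiff.mp hv).2 ((hU v).mpr hcon.le)
  have hSle : ((S \ U).card : ℝ) ≤ S.card := by
    exact_mod_cast Finset.card_le_card Finset.sdiff_subset
  -- vertices in U
  have h7 : ∑ v, (G.degree v : ℝ) = ∑ v ∈ S \ U, (G.degree v : ℝ) + ∑ v ∈ U, (G.degree v : ℝ)
      + ∑ v ∈ (S ∪ U)ᶜ, (G.degree v : ℝ) := by
    rw [← Finset.sum_add_sum_compl (S ∪ U)]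
    congr 1
    rw [← Finset.sdiff_union_self_eq_union, Finset.sum_union Finset.sdiff_disjoint]
  have h8 : ∑ v ∈ (S ∪ U)ᶜ, (G.degree v : ℝ) = 0 := by
    refine Finset.sum_eq_zero ?_
    intro v hv
    rw [Finset.mem_compl, Finset.mem_union] at hv
    push Not at hv
    have this := hv.1
    rw [hS] at this
    push Not at this
    have h0 : G.degree v = 0 := by
      rw [← SimpleGraph.card_neighborFinset_eq_degree, Finset.card_eq_zero]
      ext u
      simp [this u]
    rw [h0]; simp
  have h9 : ∑ v ∈ S \ U, (G.degree v : ℝ) ≤ D * S.card := by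
    calc ∑ v ∈ S \ U, (G.degree v : ℝ) ≤ ∑ _v ∈ S \ U, D := Finset.sum_le_sum hdegS
      _ = (S \ U).card * D := by simp
      _ ≤ D * S.card := by rw [mul_comm]; exact mul_le_mul_of_nonneg_left hSle hD
  have h10 : ∑ v ∈ U, (G.degree v : ℝ) ≤ (U.card : ℝ) ^ 2 + D * S.card := by
    calc ∑ v ∈ U, (G.degree v : ℝ)
        ≤ ∑ v ∈ U, (((U.filter (fun u => G.Adj v u)).card : ℝ)
          + (((S \ U).filter (fun u => G.Adj v u)).card : ℝ)) := Finset.sum_le_sum (fun v _ => h4 v)
      _ = ∑ v ∈ U, ((U.filter (fun u => G.Adj v u)).card : ℝ)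
          + ∑ v ∈ U, (((S \ U).filter (fun u => G.Adj v u)).card : ℝ) := Finset.sum_add_distrib
      _ ≤ (U.card : ℝ) ^ 2 + D * S.card := by
          refine add_le_add ?_ ?_
          · calc ∑ v ∈ U, ((U.filter (fun u => G.Adj v u)).card : ℝ) ≤ ∑ _v ∈ U, (U.card : ℝ) := by
                  refine Finset.sum_le_sum (fun v _ => ?_)
                  exact_mod_cast Finset.card_filter_le _ _
              _ = (U.card : ℝ) ^ 2 := by simp [sq]
          · have hdc := Finset.sum_card_bipartiteAbove_eq_sum_card_bipartiteBelow (s := U)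
              (t := S \ U) (fun v x => G.Adj v x)
            simp only [Finset.bipartiteAbove, Finset.bipartiteBelow] at hdc
            have hdc' : ∑ v ∈ U, (((S \ U).filter (fun u => G.Adj v u)).card : ℝ)
              = ∑ u ∈ S \ U, ((U.filter (fun v => G.Adj v u)).card : ℝ) := by exact_mod_cast hdc
            rw [hdc']
            refine le_trans ?_ h9
            refine Finset.sum_le_sum (fun u _ => ?_)
            rw [← SimpleGraph.card_neighborFinset_eq_degree]
            have : U.filter (fun v => G.Adj v u) ⊆ G.neighborFinset u := by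
              intro v hv
              rw [SimpleGraph.mem_neighborFinset]
              exact (Finset.mem_filter.mp hv).2.symm
            exact_mod_cast Finset.card_le_card this
  rw [h7, h8]
  linarith

/-- If the last vertex of a path is joined to the first and some outside vertex is joined to the
path, then there is a longer path. -/
lemma extend_cycle {V : Type} (G : SimpleGraph V) (cyc : List V) (hch : cyc.IsChain G.Adj)
    (hnd : cyc.Nodup) (hwrap : ∀ a ∈ cyc.getLast?, ∀ b ∈ cyc.head?, G.Adj a b)
    (w x : V) (hx : x ∈ cyc) (hw : w ∉ cyc) (hwx : G.Adj w x) :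
    ∃ l : List V, l.IsChain G.Adj ∧ l.Nodup ∧ l.length = cyc.length + 1 ∧
      ∀ v ∈ l, v = w ∨ v ∈ cyc := by
  obtain ⟨a, b, rfl⟩ := List.append_of_mem hx
  refine ⟨w :: ((x :: b) ++ a), ?_, ?_, ?_, ?_⟩
  · rw [List.isChain_cons]
    refine ⟨?_, ?_⟩
    · intro y hy
      simp only [List.cons_append, List.head?_cons, Option.mem_def, Option.some.injEq] at hy
      rw [← hy]; exact hwx
    · rw [List.isChain_append] at hch ⊢
      refine ⟨hch.2.1, hch.1, ?_⟩
      intro p hp q hq
      refine hwrap p ?_ q ?_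
      · rw [List.getLast?_append_of_ne_nil _ (by simp)]
        exact hp
      · rw [List.head?_append]
        rw [Option.mem_def] at hq
        rw [hq]; rfl
  · rw [List.nodup_cons]
    refine ⟨?_, ?_⟩
    · intro h
      apply hw
      rw [List.mem_append] at h ⊢
      exact h.symm
    · exact (List.perm_append_comm.nodup_iff).mp hnd
  · simp only [List.length_cons, List.length_append]
    omega
  · intro v hv
    rw [List.mem_cons, List.mem_append] at hv
    rcases hv with h | h | h
    · left; exact h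
    · right; exact List.mem_append_right _ h
    · right; exact List.mem_append_left _ h

/-- The Erdős–Gallai bound on vertex subsets: if `G` has no path with `2t+2` vertices, then the
number of ordered adjacent pairs inside `S` is at most `2 t |S|`. -/
lemma erdos_gallai {V : Type} [DecidableEq V] (G : SimpleGraph V) [DecidableRel G.Adj] (t : ℕ)
    (hfree : ∀ l : List V, l.IsChain G.Adj → l.Nodup → l.length ≤ 2 * t + 1) :
    ∀ S : Finset V, ∑ v ∈ S, (S.filter (fun u => G.Adj v u)).card ≤ 2 * t * S.card := by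
  intro S
  induction S using Finset.strongInduction with
  | H S ih =>
  by_cases hlow : ∃ v ∈ S, (S.filter (fun u => G.Adj v u)).card ≤ t
  · obtain ⟨v, hvS, hv⟩ := hlow
    have h1 := ih (S.erase v) (Finset.erase_ssubset hvS)
    rw [← Finset.add_sum_erase _ _ hvS]
    have h2 : ∀ u ∈ S.erase v, (S.filter (fun w => G.Adj u w)).card
        = ((S.erase v).filter (fun w => G.Adj u w)).card + (if G.Adj v u then 1 else 0) := by
      intro u hu
      rw [Finset.filter_erase]
      by_cases huv : G.Adj v u
      · rw [if_pos huv, Finset.card_erase_of_mem]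
        · have : 0 < (S.filter (fun w => G.Adj u w)).card := by
            rw [Finset.card_pos]
            exact ⟨v, Finset.mem_filter.mpr ⟨hvS, huv.symm⟩⟩
          omega
        · exact Finset.mem_filter.mpr ⟨hvS, huv.symm⟩
      · rw [if_neg huv, Finset.erase_eq_of_notMem]
        · omega
        · intro h
          exact huv (Finset.mem_filter.mp h).2.symm
    rw [Finset.sum_congr rfl h2, Finset.sum_add_distrib]
    have h3 : ∑ u ∈ S.erase v, (if G.Adj v u then 1 else 0)
        ≤ (S.filter (fun u => G.Adj v u)).card := by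
      rw [← Finset.sum_filter, ← Finset.card_eq_sum_ones]
      exact Finset.card_le_card (Finset.filter_subset_filter _ (Finset.erase_subset _ _))
    have h4 : (S.erase v).card + 1 = S.card := Finset.card_erase_add_one hvS
    rw [← h4]
    nlinarith
  · push Not at hlow
    rcases S.eq_empty_or_nonempty with rfl | ⟨v0, hv0⟩
    · simp
    -- a longest path inside S
    have hexmax : ∃ l : List V, (l.IsChain G.Adj ∧ l.Nodup ∧ ∀ v ∈ l, v ∈ S) ∧
        ∀ l' : List V, (l'.IsChain G.Adj ∧ l'.Nodup ∧ ∀ v ∈ l', v ∈ S) → l'.length ≤ l.length := by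
      classical
      let P : ℕ → Prop := fun m => ∃ l : List V, (l.IsChain G.Adj ∧ l.Nodup ∧ ∀ v ∈ l, v ∈ S) ∧
        l.length = m
      have hP0 : P 0 := ⟨[], by simp, rfl⟩
      have hspec := Nat.findGreatest_spec (P := P) (Nat.zero_le (2 * t + 1)) hP0
      obtain ⟨l, hl, hlen⟩ := hspec
      refine ⟨l, hl, ?_⟩
      intro l' hl'
      rw [hlen]
      exact Nat.le_findGreatest (hfree l' hl'.1 hl'.2.1) ⟨l', hl', rfl⟩
    obtain ⟨l, ⟨hch, hnd, hlS⟩, hmax⟩ := hexmax
    have hlen1 : 1 ≤ l.length := by
      have := hmax [v0] ⟨by simp, by simp, by simpa using hv0⟩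
      simpa using this
    have hlen2 : l.length ≤ 2 * t + 1 := hfree l hch hnd
    set n := l.length with hn
    have h0n : 0 < l.length := by omega
    have hend : n - 1 < l.length := by omega
    have hlne : l ≠ [] := by
      intro h; rw [h] at h0n; simp at h0n
    -- neighbours of the first vertex
    have hA : (S.filter (fun u => G.Adj l[0] u)).card
        ≤ ((Finset.range (n - 1)).filter
          (fun i => ∃ h : i + 1 < l.length, G.Adj l[0] l[i + 1])).card := by
      have : S.filter (fun u => G.Adj l[0] u) ⊆ ((Finset.range (n - 1)).filter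
          (fun i => ∃ h : i + 1 < l.length, G.Adj l[0] l[i + 1])).image
          (fun i => if h : i + 1 < l.length then l[i + 1] else v0) := by
        intro u hu
        rw [Finset.mem_filter] at hu
        have hul : u ∈ l := by
          by_contra hul
          have := hmax (u :: l) ⟨by
            rw [List.isChain_cons]
            refine ⟨?_, hch⟩
            intro y hy
            rw [List.head?_eq_getElem?, List.getElem?_eq_getElem h0n, Option.mem_def,
              Option.some.injEq] at hy
            rw [← hy]; exact hu.2.symm, by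
            rw [List.nodup_cons]; exact ⟨hul, hnd⟩, by
            intro v hv
            rw [List.mem_cons] at hv
            rcases hv with rfl | hv
            · exact hu.1
            · exact hlS v hv⟩
          rw [List.length_cons] at this
          omega
        obtain ⟨j, hj, hju⟩ := List.getElem_of_mem hul
        have hj0 : j ≠ 0 := by
          intro h
          subst h
          rw [hju] at hu
          exact G.loopless.irrefl _ hu.2
        obtain ⟨i, rfl⟩ : ∃ i, j = i + 1 := ⟨j - 1, by omega⟩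
        rw [Finset.mem_image]
        refine ⟨i, ?_, ?_⟩
        · rw [Finset.mem_filter, Finset.mem_range]
          exact ⟨by omega, hj, by rw [hju]; exact hu.2⟩
        · rw [dif_pos hj]; exact hju
      exact le_trans (Finset.card_le_card this) Finset.card_image_le
    -- neighbours of the last vertex
    have hB : (S.filter (fun u => G.Adj l[n - 1] u)).card
        ≤ ((Finset.range (n - 1)).filter
          (fun i => ∃ h : i < l.length, G.Adj l[n - 1] l[i])).card := by
      have : S.filter (fun u => G.Adj l[n - 1] u) ⊆ ((Finset.range (n - 1)).filter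
          (fun i => ∃ h : i < l.length, G.Adj l[n - 1] l[i])).image
          (fun i => if h : i < l.length then l[i] else v0) := by
        intro u hu
        rw [Finset.mem_filter] at hu
        have hul : u ∈ l := by
          by_contra hul
          have := hmax (l ++ [u]) ⟨by
            rw [List.isChain_append]
            refine ⟨hch, by simp, ?_⟩
            intro y hy z hz
            rw [List.getLast?_eq_getElem?, List.getElem?_eq_getElem hend, Option.mem_def,
              Option.some.injEq] at hy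
            simp only [List.head?_cons, Option.mem_def, Option.some.injEq] at hz
            rw [← hy, ← hz]; exact hu.2, by
            rw [List.nodup_append]
            refine ⟨hnd, by simp, ?_⟩
            intro a ha b hb hab
            rw [List.mem_singleton] at hb
            rw [hab, hb] at ha
            exact hul ha, by
            intro v hv
            rw [List.mem_append, List.mem_singleton] at hv
            rcases hv with hv | rfl
            · exact hlS v hv
            · exact hu.1⟩
          rw [List.length_append, List.length_singleton] at this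
          omega
        obtain ⟨j, hj, hju⟩ := List.getElem_of_mem hul
        have hj0 : j ≠ n - 1 := by
          intro h
          subst h
          rw [hju] at hu
          exact G.loopless.irrefl _ hu.2
        rw [Finset.mem_image]
        refine ⟨j, ?_, ?_⟩
        · rw [Finset.mem_filter, Finset.mem_range]
          exact ⟨by omega, hj, by rw [hju]; exact hu.2⟩
        · rw [dif_pos hj]; exact hju
      exact le_trans (Finset.card_le_card this) Finset.card_image_le
    have hA' := hlow l[0] (hlS _ (List.getElem_mem h0n))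
    have hB' := hlow l[n - 1] (hlS _ (List.getElem_mem hend))
    -- pigeonhole
    have hinter : ∃ i, i ∈ (Finset.range (n - 1)).filter
          (fun i => ∃ h : i + 1 < l.length, G.Adj l[0] l[i + 1]) ∧
          i ∈ (Finset.range (n - 1)).filter
          (fun i => ∃ h : i < l.length, G.Adj l[n - 1] l[i]) := by
      by_contra hcon
      push Not at hcon
      have hdisj : Disjoint ((Finset.range (n - 1)).filter
          (fun i => ∃ h : i + 1 < l.length, G.Adj l[0] l[i + 1]))
          ((Finset.range (n - 1)).filter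
          (fun i => ∃ h : i < l.length, G.Adj l[n - 1] l[i])) := by
        rw [Finset.disjoint_left]
        exact hcon
      have h1 := Finset.card_union_of_disjoint hdisj
      have h2 := Finset.card_le_card (Finset.union_subset
        (Finset.filter_subset (fun i => ∃ h : i + 1 < l.length, G.Adj l[0] l[i + 1])
          (Finset.range (n - 1)))
        (Finset.filter_subset (fun i => ∃ h : i < l.length, G.Adj l[n - 1] l[i])
          (Finset.range (n - 1))))
      rw [Finset.card_range] at h2
      omega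
    obtain ⟨i, hiA, hiB⟩ := hinter
    rw [Finset.mem_filter, Finset.mem_range] at hiA hiB
    obtain ⟨hi, hi1, hadj1⟩ := hiA
    obtain ⟨_, hi2, hadj2⟩ := hiB
    set cyc := l.take (i + 1) ++ (l.drop (i + 1)).reverse with hcyc
    have hperm : cyc.Perm l := by
      have h1 : (l.take (i + 1) ++ (l.drop (i + 1)).reverse).Perm
          (l.take (i + 1) ++ l.drop (i + 1)) :=
        List.Perm.append_left _ (List.reverse_perm _)
      rwa [List.take_append_drop] at h1
    have hdropne : l.drop (i + 1) ≠ [] := by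
      rw [Ne, List.drop_eq_nil_iff]; omega
    have hcycch : cyc.IsChain G.Adj := by
      rw [hcyc, List.isChain_append]
      refine ⟨hch.take _, ?_, ?_⟩
      · rw [List.isChain_reverse]
        exact (hch.drop (i + 1)).imp (fun _ _ h => h.symm)
      · intro x hx y hy
        rw [List.getLast?_take, if_neg (by omega)] at hx
        rw [List.head?_reverse, List.getLast?_drop, if_neg (by omega)] at hy
        rw [List.getLast?_eq_getElem?, List.getElem?_eq_getElem hend, Option.mem_def,
              Option.some.injEq] at hy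
        simp only [Nat.add_sub_cancel, List.getElem?_eq_getElem hi2, Option.some_or,
          Option.mem_def, Option.some.injEq] at hx
        rw [← hx, ← hy]
        exact hadj2.symm
    have hwrap : ∀ a ∈ cyc.getLast?, ∀ b ∈ cyc.head?, G.Adj a b := by
      intro a ha b hb
      rw [hcyc, List.getLast?_append_of_ne_nil _ (by simpa using hdropne), List.getLast?_reverse,
        List.head?_drop, List.getElem?_eq_getElem hi1, Option.mem_def, Option.some.injEq] at ha
      rw [hcyc, List.head?_append, List.head?_take, if_neg (by omega), List.head?_eq_getElem?,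
        List.getElem?_eq_getElem h0n] at hb
      simp only [Option.some_or, Option.mem_def, Option.some.injEq] at hb
      rw [← ha, ← hb]
      exact hadj1.symm
    have hcycnd : cyc.Nodup := hperm.nodup_iff.mpr hnd
    have hno : ∀ w ∈ S, w ∉ l → ∀ x ∈ l, ¬ G.Adj w x := by
      intro w hwS hwl x hxl hwx
      obtain ⟨l', h1, h2, h3, h4⟩ := extend_cycle G cyc hcycch hcycnd hwrap w x
        (hperm.mem_iff.mpr hxl) (fun h => hwl (hperm.mem_iff.mp h)) hwx
      have := hmax l' ⟨h1, h2, by
        intro v hv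
        rcases h4 v hv with rfl | h
        · exact hwS
        · exact hlS v (hperm.mem_iff.mp h)⟩
      rw [h3, hperm.length_eq] at this
      omega
    -- split
    set L := l.toFinset with hL
    have hLS : L ⊆ S := by
      intro v hv
      rw [hL, List.mem_toFinset] at hv
      exact hlS v hv
    have hLc : L.card = n := List.toFinset_card_of_nodup hnd
    have hLne : L.Nonempty := by rw [← Finset.card_pos]; omega
    have hss : S \ L ⊂ S := Finset.sdiff_ssubset hLS hLne
    have h1 := ih (S \ L) hss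
    rw [← Finset.sum_sdiff hLS]
    have h2 : ∀ v ∈ S \ L, (S.filter (fun u => G.Adj v u)).card
        = ((S \ L).filter (fun u => G.Adj v u)).card := by
      intro v hv
      congr 1
      ext u
      rw [Finset.mem_sdiff, hL, List.mem_toFinset] at hv
      rw [Finset.mem_filter, Finset.mem_filter, Finset.mem_sdiff, hL, List.mem_toFinset]
      constructor
      · rintro ⟨ha, hb⟩
        exact ⟨⟨ha, fun hul => hno v hv.1 hv.2 u hul hb⟩, hb⟩
      · rintro ⟨⟨ha, _⟩, hb⟩
        exact ⟨ha, hb⟩
    have h3 : ∀ v ∈ L, (S.filter (fun u => G.Adj v u)).card ≤ 2 * t := by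
      intro v hv
      have hvl : v ∈ l := by rwa [hL, List.mem_toFinset] at hv
      have : S.filter (fun u => G.Adj v u) ⊆ L.erase v := by
        intro u hu
        rw [Finset.mem_filter] at hu
        rw [Finset.mem_erase, hL, List.mem_toFinset]
        refine ⟨hu.2.ne', ?_⟩
        by_contra hul
        exact hno u hu.1 hul v hvl hu.2.symm
      have h5 := Finset.card_le_card this
      rw [Finset.card_erase_of_mem hv, hLc] at h5
      omega
    rw [Finset.sum_congr rfl h2]
    have h4 : ∑ v ∈ L, (S.filter (fun u => G.Adj v u)).card ≤ L.card * (2 * t) := by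
      rw [← smul_eq_mul]
      exact Finset.sum_le_card_nsmul _ _ _ h3
    have h5 : (S \ L).card + L.card = S.card := Finset.card_sdiff_add_card_eq_card hLS
    rw [← h5]
    nlinarith

lemma length_le_of_free {V : Type} (G : SimpleGraph V) (t : ℕ)
    (h : (pathGraph (2 * t + 2)).Free G) :
    ∀ l : List V, l.IsChain G.Adj → l.Nodup → l.length ≤ 2 * t + 1 := by
  intro l hch hnd
  by_contra hlen
  push Not at hlen
  apply h
  rw [List.isChain_iff_getElem] at hch
  refine ⟨⟨⟨fun i => l[i.1]'(by omega), ?_⟩, ?_⟩⟩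
  · intro a b hab
    rw [pathGraph_adj] at hab
    rcases hab with hab | hab
    · have := hch a.1 (by omega)
      simp only [hab] at this
      exact this
    · have := hch b.1 (by omega)
      simp only [hab] at this
      exact this.symm
  · intro a b hab
    simp only [RelHom.coeFn_mk] at hab
    exact Fin.ext ((hnd.getElem_inj_iff).mp hab)

/-- Erdős–Gallai for the path with `2t+2` vertices. -/
lemma edges_le_of_free {n : ℕ} (G : SimpleGraph (Fin n)) (t : ℕ)
    (h : (pathGraph (2 * t + 2)).Free G) : G.edgeSet.ncard ≤ t * n := by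
  classical
  have h1 := erdos_gallai G t (length_le_of_free G t h) Finset.univ
  have h2 := G.sum_degrees_eq_twice_card_edges
  have h3 : (G.edgeSet.ncard) = G.edgeFinset.card := by
    rw [← Set.ncard_coe_finset, SimpleGraph.coe_edgeFinset]
  have h4 : ∀ v, (Finset.univ.filter (fun u => G.Adj v u)).card = G.degree v := by
    intro v
    rw [← SimpleGraph.card_neighborFinset_eq_degree]
    congr 1
    ext u
    simp
  rw [Finset.sum_congr rfl (fun v _ => h4 v), h2] at h1
  rw [Finset.card_univ, Fintype.card_fin] at h1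
  rw [h3]
  have : 2 * G.edgeFinset.card ≤ 2 * (t * n) := by
    rw [← mul_assoc]; exact h1
  omega

lemma path_free_bot {V : Type} (t : ℕ) : (pathGraph (2 * t + 2)).Free (⊥ : SimpleGraph V) := by
  apply free_bot
  intro h
  have h1 : (pathGraph (2 * t + 2)).Adj ⟨0, by omega⟩ ⟨1, by omega⟩ := by
    rw [pathGraph_adj]; simp
  rw [h] at h1
  exact h1

lemma ex_lt_iff {n : ℕ} (G : SimpleGraph (Fin n)) (t k : ℕ) :
    ex G (pathGraph (2 * t + 2)) < k ↔
      ∀ H : SimpleGraph (Fin n), H ≤ G → (pathGraph (2 * t + 2)).Free H → H.edgeSet.ncard < k := by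
  classical
  have hbdd : BddAbove {m : ℕ | ∃ H : SimpleGraph (Fin n), H ≤ G ∧
      (pathGraph (2 * t + 2)).Free H ∧ H.edgeSet.ncard = m} := by
    refine ⟨G.edgeSet.ncard, ?_⟩
    rintro m ⟨H, hH, -, rfl⟩
    exact Set.ncard_le_ncard (SimpleGraph.edgeSet_subset_edgeSet.mpr hH) (Set.toFinite _)
  have hne : {m : ℕ | ∃ H : SimpleGraph (Fin n), H ≤ G ∧
      (pathGraph (2 * t + 2)).Free H ∧ H.edgeSet.ncard = m}.Nonempty :=
    ⟨_, ⊥, bot_le, path_free_bot t, rfl⟩
  constructor
  · intro h H hH hf
    exact lt_of_le_of_lt (le_csSup hbdd ⟨H, hH, hf, rfl⟩) h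
  · intro h
    obtain ⟨H, hH, hf, hm⟩ := Nat.sSup_mem hne hbdd
    unfold ex
    rw [← hm]
    exact h H hH hf

lemma upper (t : ℕ) (ht : 1 ≤ t) (ε : ℝ) (hε : 0 < ε) :
    ∃ K : ℕ, ∀ k ≥ K, ∀ (n : ℕ) (G : SimpleGraph (Fin n)),
      (∀ H : SimpleGraph (Fin n), H ≤ G → (pathGraph (2 * t + 2)).Free H → H.edgeSet.ncard < k) →
      (G.edgeSet.ncard : ℝ) ≤ (k : ℝ) ^ 2 / (2 * (t : ℝ) ^ 2) + ε * (k : ℝ) ^ 2 := by
  classical
  set η : ℝ := min (ε / 8) 1 with hη
  have hη0 : 0 < η := lt_min (by positivity) one_pos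
  have hη1 : η ≤ 1 := min_le_right _ _
  have hηε : η ≤ ε / 8 := min_le_left _ _
  set γ : ℝ := min (ε / 15) 1 with hγ
  have hγ0 : 0 < γ := lt_min (by positivity) one_pos
  have hγ1 : γ ≤ 1 := min_le_right _ _
  have hγε : γ ≤ ε / 15 := min_le_left _ _
  set c : ℝ := (η / 4) ^ t with hc
  have hc0 : 0 < c := by positivity
  have hc1 : c ≤ 1 := pow_le_one₀ (by positivity) (by linarith)
  obtain ⟨M, hM⟩ := exists_pow_lt_of_lt_one hγ0 (show 1 - c < 1 by linarith)
  have htR : (1 : ℝ) ≤ t := by exact_mod_cast ht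
  obtain ⟨K, hK⟩ := exists_nat_gt (max 1 (max ((t * M + t : ℝ) / (η / 2)) ((t * M : ℝ) / γ)))
  refine ⟨K, ?_⟩
  intro k hkK n G hG
  have hkR : (K : ℝ) ≤ k := by exact_mod_cast hkK
  have hk1 : (1 : ℝ) < k := lt_of_lt_of_le (lt_of_le_of_lt (le_max_left _ _) hK) hkR
  have hk2 : (t * M + t : ℝ) ≤ η / 2 * k := by
    have h1 : (t * M + t : ℝ) / (η / 2) < k := lt_of_lt_of_le (lt_of_le_of_lt
      (le_trans (le_max_left _ _) (le_max_right _ _)) hK) hkR
    rw [div_lt_iff₀ (by positivity)] at h1
    linarith
  have hk3 : (t * M : ℝ) ≤ γ * k := by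
    have h1 : (t * M : ℝ) / γ < k := lt_of_lt_of_le (lt_of_le_of_lt
      (le_trans (le_max_right _ _) (le_max_right _ _)) hK) hkR
    rw [div_lt_iff₀ (by positivity)] at h1
    linarith
  have hk0 : (0 : ℝ) < k := by linarith
  set S := Finset.univ.filter (fun v : Fin n => ∃ u, G.Adj v u) with hS
  have hSiff : ∀ v, v ∈ S ↔ ∃ u, G.Adj v u := by
    intro v; simp [hS]
  have hSc : (S.card : ℝ) ≤ 2 * k := by
    exact_mod_cast support_bound G t ht k hG S hSiff
  set U := Finset.univ.filter (fun v : Fin n => η * k ≤ (G.degree v : ℝ)) with hU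
  have hUS : U ⊆ S := by
    intro v hv
    have h1 := (Finset.mem_filter.mp hv).2
    have h2 : 0 < G.degree v := by
      have : (0 : ℝ) < G.degree v := lt_of_lt_of_le (by positivity) h1
      exact_mod_cast this
    rw [hS, Finset.mem_filter]
    refine ⟨Finset.mem_univ _, ?_⟩
    rw [← SimpleGraph.card_neighborFinset_eq_degree, Finset.card_pos] at h2
    obtain ⟨u, hu⟩ := h2
    exact ⟨u, by rwa [SimpleGraph.mem_neighborFinset] at hu⟩
  have hUc : (U.card : ℝ) ≤ 2 * k := le_trans (by exact_mod_cast Finset.card_le_card hUS) hSc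
  have hdN : (η / 2 * k) / (2 * k) = η / 4 := by
    field_simp
    ring
  obtain ⟨𝒯, hT1, hT2, hT3, hT4⟩ := cover G S (by
      intro u v huv
      rw [hS, Finset.mem_filter]
      exact ⟨Finset.mem_univ _, u, huv.symm⟩) (2 * k) (η / 2 * k) hSc (by positivity)
      (by positivity) t ht U M (by
        intro v hv
        have h1 := (Finset.mem_filter.mp hv).2
        linarith) (by rw [hdN]; exact hc1) M le_rfl
  rw [hdN, ← hc] at hT4
  have hcov := cover_bound G t k hG 𝒯 hT2 hT3 U
  set un : ℕ := (U.filter (fun v => ∀ T ∈ 𝒯, ¬ T ⊆ G.neighborFinset v)).card with hun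
  have hunR : (un : ℝ) ≤ γ * (2 * k) := by
    refine le_trans hT4 ?_
    exact mul_le_mul hM.le hUc (by positivity) hγ0.le
  have hcovR : (t : ℝ) * U.card < k + t * (t * 𝒯.card) + t * un := by exact_mod_cast hcov
  have hTM : (𝒯.card : ℝ) ≤ M := by exact_mod_cast hT1
  have ht0 : (0 : ℝ) < t := by linarith
  have ha : (U.card : ℝ) ≤ k / t + 3 * γ * k := by
    have h1 : (t : ℝ) * U.card < t * (k / t + t * M + γ * (2 * k)) := by
      calc (t : ℝ) * U.card < k + t * (t * 𝒯.card) + t * un := hcovR
        _ ≤ k + t * (t * M) + t * (γ * (2 * k)) := by gcongr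
        _ = t * (k / t + t * M + γ * (2 * k)) := by field_simp
    have h2 : (U.card : ℝ) < k / t + t * M + γ * (2 * k) := lt_of_mul_lt_mul_left h1 ht0.le
    linarith
  have hE := edges_bound G (η * k) (by positivity) S U hSiff (by intro v; simp [hU])
  have h1 : (U.card : ℝ) ^ 2 ≤ (k / t + 3 * γ * k) ^ 2 := by
    gcongr
  have h2 : (k / t + 3 * γ * k : ℝ) ^ 2 ≤ k ^ 2 / t ^ 2 + 15 * γ * k ^ 2 := by
    have e1 : (k / t + 3 * γ * k : ℝ) ^ 2 = k ^ 2 / t ^ 2 + 6 * γ * (1 / t) * k ^ 2
        + 9 * γ ^ 2 * k ^ 2 := by field_simp; ring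
    rw [e1]
    have e2 : (1 / t : ℝ) ≤ 1 := by
      rw [div_le_one ht0]; exact htR
    have e3 : 6 * γ * (1 / t : ℝ) * k ^ 2 ≤ 6 * γ * 1 * k ^ 2 := by gcongr
    have e4 : γ ^ 2 ≤ γ := by nlinarith
    have e5 : 9 * γ ^ 2 * (k : ℝ) ^ 2 ≤ 9 * γ * k ^ 2 := by gcongr
    linarith
  have h3 : 2 * (η * k) * (S.card : ℝ) ≤ 4 * η * k ^ 2 := by
    calc 2 * (η * k) * (S.card : ℝ) ≤ 2 * (η * k) * (2 * k) := by gcongr
      _ = 4 * η * k ^ 2 := by ring
  have h4 : 2 * (G.edgeSet.ncard : ℝ) ≤ k ^ 2 / t ^ 2 + 15 * γ * k ^ 2 + 4 * η * k ^ 2 := by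
    linarith
  have h5 : 15 * γ * (k : ℝ) ^ 2 ≤ ε * k ^ 2 := by
    have : 15 * γ ≤ ε := by linarith
    gcongr
  have h6 : 4 * η * (k : ℝ) ^ 2 ≤ ε / 2 * k ^ 2 := by
    have : 4 * η ≤ ε / 2 := by linarith
    gcongr
  have h7 : (k : ℝ) ^ 2 / (2 * (t : ℝ) ^ 2) = (k ^ 2 / t ^ 2) / 2 := by
    field_simp
  rw [h7]
  have h8 : 0 ≤ ε * (k : ℝ) ^ 2 := by positivity
  linarith

/-- The set of admissible edge numbers is bounded for every `k`. -/
lemma exInv_ne_top (t : ℕ) (ht : 1 ≤ t) (k : ℕ) : exInv k (pathGraph (2 * t + 2)) ≠ ⊤ := by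
  classical
  have : exInv k (pathGraph (2 * t + 2)) ≤ (((2 * k) * (2 * k) : ℕ) : ℕ∞) := by
    unfold exInv
    refine iSup_le fun n => iSup_le fun G => iSup_le fun hG => ?_
    rw [ex_lt_iff] at hG
    have h1 := support_bound G t ht k hG
      (Finset.univ.filter (fun v : Fin n => ∃ u, G.Adj v u)) (by intro v; simp)
    have h3 : (G.edgeSet.ncard) = G.edgeFinset.card := by
      rw [← Set.ncard_coe_finset, SimpleGraph.coe_edgeFinset]
    have h4 : G.edgeFinset ⊆ ((Finset.univ.filter (fun v : Fin n => ∃ u, G.Adj v u)) ×ˢ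
        (Finset.univ.filter (fun v : Fin n => ∃ u, G.Adj v u))).image (fun p => s(p.1, p.2)) := by
      intro e he
      induction e using Sym2.ind with
      | _ a b =>
      rw [SimpleGraph.mem_edgeFinset, SimpleGraph.mem_edgeSet] at he
      rw [Finset.mem_image]
      refine ⟨(a, b), ?_, rfl⟩
      rw [Finset.mem_product, Finset.mem_filter, Finset.mem_filter]
      exact ⟨⟨Finset.mem_univ _, b, he⟩, ⟨Finset.mem_univ _, a, he.symm⟩⟩
    have h5 := le_trans (Finset.card_le_card h4) Finset.card_image_le
    rw [Finset.card_product] at h5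
    rw [h3]
    exact_mod_cast le_trans h5 (Nat.mul_le_mul h1 h1)
  exact ne_top_of_le_ne_top (ENat.natCast_ne_top _) this

lemma lower (t : ℕ) (ht : 1 ≤ t) (k : ℕ) (hk : t ≤ k) :
    (((k / t - 1).choose 2 : ℕ) : ℕ∞) ≤ exInv k (pathGraph (2 * t + 2)) := by
  classical
  unfold exInv
  have hq : 1 ≤ k / t := (Nat.one_le_div_iff (by omega)).mpr hk
  have hlt : ex (⊤ : SimpleGraph (Fin (k / t - 1))) (pathGraph (2 * t + 2)) < k := by
    rw [ex_lt_iff]
    intro H _ hH
    have h1 := edges_le_of_free H t hH
    have h2 : t * (k / t) ≤ k := Nat.mul_div_le k t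
    have h3 : t * (k / t - 1) + t = t * (k / t) := by
      rw [← Nat.mul_succ]; congr 1; omega
    omega
  refine le_trans ?_ (le_iSup_of_le (k / t - 1) (le_iSup_of_le (⊤ : SimpleGraph (Fin (k / t - 1)))
    (le_iSup_of_le hlt le_rfl)))
  have h3 : ((⊤ : SimpleGraph (Fin (k / t - 1))).edgeSet.ncard)
      = (⊤ : SimpleGraph (Fin (k / t - 1))).edgeFinset.card := by
    rw [← Set.ncard_coe_finset, SimpleGraph.coe_edgeFinset]
  rw [h3, SimpleGraph.card_edgeFinset_top_eq_card_choose_two, Fintype.card_fin]

/-- **The inverse Turán number of odd paths** (conjecture of Briggs and Cox): for every `t ≥ 1`,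
`ex⁻¹(k, P_{2t+1}) = (⌊k/t⌋ choose 2) + o(k²)`, where `P_{2t+1}` is the path with `2t+1` edges. -/
theorem result (t : ℕ) (ht : 1 ≤ t) :
    (∀ k : ℕ, exInv k (pathGraph (2 * t + 2)) ≠ ⊤) ∧
    (fun k : ℕ => ((exInv k (pathGraph (2 * t + 2))).toNat : ℝ) - ((k / t).choose 2 : ℝ))
      =o[Filter.atTop] (fun k : ℕ => (k : ℝ) ^ 2) := by
  refine ⟨exInv_ne_top t ht, ?_⟩
  rw [Asymptotics.isLittleO_iff]
  intro ε hε
  obtain ⟨K, hK⟩ := upper t ht (ε / 2) (by positivity)
  obtain ⟨K2, hK2⟩ := exists_nat_gt (3 / ε)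
  rw [Filter.eventually_atTop]
  refine ⟨max (max K K2) (2 * t + 1), ?_⟩
  intro k hk
  have hkK : K ≤ k := le_trans (le_trans (le_max_left _ _) (le_max_left _ _)) hk
  have hkK2 : K2 ≤ k := le_trans (le_trans (le_max_right _ _) (le_max_left _ _)) hk
  have hkt : 2 * t + 1 ≤ k := le_trans (le_max_right _ _) hk
  have hkR : 3 / ε < k := lt_of_lt_of_le hK2 (by exact_mod_cast hkK2)
  have hk3 : 3 * (k : ℝ) ≤ ε * k ^ 2 := by
    rw [div_lt_iff₀ hε] at hkR
    have : (0 : ℝ) ≤ k := by positivity
    nlinarith
  have hne := exInv_ne_top t ht k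
  set X : ℕ := (exInv k (pathGraph (2 * t + 2))).toNat with hX
  have hXe : (X : ℕ∞) = exInv k (pathGraph (2 * t + 2)) := ENat.natCast_toNat hne
  have ht0 : (0 : ℝ) < t := by exact_mod_cast (by omega : 0 < t)
  have htR : (1 : ℝ) ≤ t := by exact_mod_cast ht
  have hk0 : (0 : ℝ) < k := by exact_mod_cast (by omega : 0 < k)
  -- upper bound
  have hup : (X : ℝ) ≤ (k : ℝ) ^ 2 / (2 * (t : ℝ) ^ 2) + ε / 2 * (k : ℝ) ^ 2 := by
    have h0 : (0 : ℝ) ≤ (k : ℝ) ^ 2 / (2 * (t : ℝ) ^ 2) + ε / 2 * (k : ℝ) ^ 2 := by positivity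
    have h1 : exInv k (pathGraph (2 * t + 2)) ≤
        ((⌊(k : ℝ) ^ 2 / (2 * (t : ℝ) ^ 2) + ε / 2 * (k : ℝ) ^ 2⌋₊ : ℕ) : ℕ∞) := by
      unfold exInv
      refine iSup_le fun n => iSup_le fun G => iSup_le fun hG => ?_
      rw [ex_lt_iff] at hG
      have := hK k hkK n G hG
      exact_mod_cast Nat.le_floor this
    rw [← hXe] at h1
    have h2 : X ≤ ⌊(k : ℝ) ^ 2 / (2 * (t : ℝ) ^ 2) + ε / 2 * (k : ℝ) ^ 2⌋₊ := by
      exact_mod_cast h1
    exact le_trans (by exact_mod_cast h2) (Nat.floor_le h0)
  -- lower bound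
  have hlo : (((k / t - 1).choose 2 : ℕ) : ℝ) ≤ X := by
    have h1 := lower t ht k (by omega)
    rw [← hXe] at h1
    exact_mod_cast h1
  set q : ℕ := k / t with hq
  have hq2 : 2 ≤ q := by
    rw [hq, Nat.le_div_iff_mul_le (by omega)]; omega
  have hqle : (q : ℝ) ≤ k / t := by
    rw [hq]; exact Nat.cast_div_le
  have hqk : (q : ℝ) ≤ k := by
    refine le_trans hqle ?_
    rw [div_le_iff₀ ht0]
    nlinarith
  have hqge : (k : ℝ) / t - 1 < q := by
    have h1 : k < t * q + t := by
      have := Nat.lt_mul_div_succ k (show 0 < t by omega)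
      rw [← hq] at this
      linarith
    have h2 : (k : ℝ) < t * q + t := by exact_mod_cast h1
    rw [sub_lt_iff_lt_add, div_lt_iff₀ ht0]
    linarith
  have hc1 : ((q.choose 2 : ℕ) : ℝ) = (q : ℝ) * (q - 1) / 2 := Nat.cast_choose_two ℝ q
  have hc2 : (((q - 1).choose 2 : ℕ) : ℝ) = ((q : ℝ) - 1) * ((q : ℝ) - 1 - 1) / 2 := by
    rw [Nat.cast_choose_two ℝ (q - 1), Nat.cast_sub (by omega)]
    simp
  rw [Real.norm_eq_abs, Real.norm_eq_abs, abs_of_nonneg (by positivity : (0 : ℝ) ≤ (k : ℝ) ^ 2)]
  rw [abs_le]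
  have hq2R : (2 : ℝ) ≤ q := by exact_mod_cast hq2
  constructor
  · rw [hc2] at hlo
    rw [hc1]
    nlinarith
  · rw [hc1]
    have e1 : (k : ℝ) ^ 2 / (2 * (t : ℝ) ^ 2) = (k / t) * (k / t) / 2 := by
      field_simp
    rw [e1] at hup
    have e2 : (k : ℝ) / t ≤ k := by
      rw [div_le_iff₀ ht0]; nlinarith
    have e3 : (k : ℝ) / t * (k / t) / 2 - q * (q - 1) / 2 ≤ 3 / 2 * k := by
      have e4 : (k : ℝ) / t * (k / t) ≤ (q + 1) * (q + 1) := by
        have : (0 : ℝ) ≤ k / t := by positivity
        have h5 : (k : ℝ) / t ≤ q + 1 := by linarith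
        exact mul_le_mul h5 h5 this (by linarith)
      nlinarith
    linarith

end Pool.Agent.Results.MP_002b89_co.InverseTuranOddPath
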